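import Pool.Agent.H64.AG.Defs

/-! # Module GF of the board ag_modules: the application of Martin's axiom -/

set_option autoImplicit false

open Cardinal

namespace Pool.Agent.H87.AG

open Pool.Agent.H64.AG Pool.Agent.H20.SL Pool.Agent.H64.AK Pool.Agent.H60.CP

/-- finite free sets -/
structure FQ {S : Type} (Bad : S → S → Prop) : Type where
  fs : Finset S
  free : Free Bad (fs : Set S)

instance {S : Type} (Bad : S → S → Prop) : PartialOrder (FQ Bad) where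
  le q p := p.fs ⊆ q.fs
  le_refl p := Finset.Subset.refl _
  le_trans r q p h1 h2 := Finset.Subset.trans h2 h1
  le_antisymm p q h1 h2 := by
    cases p
    cases q
    simp only [FQ.mk.injEq]
    exact Finset.Subset.antisymm h2 h1

theorem FQ.le_def {S : Type} {Bad : S → S → Prop} (q p : FQ Bad) : q ≤ p ↔ p.fs ⊆ q.fs := Iff.rfl

/-- the countable chain condition of the poset of finite free sets -/
theorem fq_ccc {S : Type} (Bad : S → S → Prop) (hs : ∀ s t, Bad s t → Bad t s) (hF : FCC Bad)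
    (A : Set (FQ Bad)) (hA : ∀ a ∈ A, ∀ b ∈ A, a ≠ b → ¬ ∃ c : FQ Bad, c ≤ a ∧ c ≤ b) :
    A.Countable := by
  classical
  by_contra hc
  obtain ⟨b, b', hne, h⟩ := hF A (fun a => a.1.fs) (fun h => hc h) (fun a => a.1.free)
  refine hA b.1 b.2 b'.1 b'.2 (fun h => hne (Subtype.ext h)) ⟨⟨b.1.fs ∪ b'.1.fs, ?_⟩,
    Finset.subset_union_left, Finset.subset_union_right⟩
  intro s hs1 t ht1
  rw [Finset.coe_union] at hs1 ht1
  rcases hs1 with hs1 | hs1
  · rcases ht1 with ht1 | ht1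
    · exact b.1.free s hs1 t ht1
    · exact h s hs1 t ht1
  · rcases ht1 with ht1 | ht1
    · exact fun hB => h t ht1 s hs1 (hs _ _ hB)
    · exact b'.1.free s hs1 t ht1

/-- below some condition, new members of `S₀` can always be added -/
theorem fq_dns {S : Type} (Bad : S → S → Prop) (hs : ∀ s t, Bad s t → Bad t s) (hF : FCC Bad)
    (S₀ : Set S) (hS : ¬ S₀.Countable) (hS0 : ∀ s ∈ S₀, ¬ Bad s s) :
    ∃ p₀ : FQ Bad, ∀ q ≤ p₀, ∀ T : Set S, T.Countable → ∃ r ≤ q, ∃ s ∈ r.fs, s ∈ S₀ ∧ s ∉ T := by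
  classical
  by_contra hcon
  push Not at hcon
  let Q : Set (FQ Bad) := {q | ∃ T : Set S, T.Countable ∧ ∀ r ≤ q, ∀ s ∈ r.fs, s ∈ S₀ → s ∈ T}
  let Fam : Set (Set (FQ Bad)) :=
    {M | M ⊆ Q ∧ ∀ a ∈ M, ∀ b ∈ M, a ≠ b → ¬ ∃ c, c ≤ a ∧ c ≤ b}
  have hQ : ∀ p : FQ Bad, ∃ q ≤ p, q ∈ Q := by
    intro p
    obtain ⟨q, hq, T, hT, h⟩ := hcon p
    exact ⟨q, hq, T, hT, h⟩
  obtain ⟨M, hM⟩ := zorn_subset Fam (by
    intro c hc hchain
    refine ⟨⋃₀ c, ⟨?_, ?_⟩, fun s hs => Set.subset_sUnion_of_mem hs⟩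
    · intro x hx
      obtain ⟨s, hs, hxs⟩ := hx
      exact (hc hs).1 hxs
    · rintro a ⟨s, hs, has⟩ b ⟨t, ht, hbt⟩ hab
      rcases hchain.total hs ht with hst | hst
      · exact (hc ht).2 a (hst has) b hbt hab
      · exact (hc hs).2 a has b (hst hbt) hab)
  have hMF : M ∈ Fam := hM.prop
  have hMc : M.Countable := fq_ccc Bad hs hF M hMF.2
  have hch : ∀ q : M, ∃ T : Set S, T.Countable ∧ ∀ r ≤ q.1, ∀ s ∈ r.fs, s ∈ S₀ → s ∈ T :=
    fun q => hMF.1 q.2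
  choose T hT1 hT2 using hch
  have : Countable M := hMc.to_subtype
  have hU : (⋃ q : M, T q).Countable := Set.countable_iUnion hT1
  have hw : ∃ w ∈ S₀, w ∉ ⋃ q : M, T q := by
    by_contra hall
    push Not at hall
    exact hS (hU.mono hall)
  obtain ⟨w, hwS, hw⟩ := hw
  have hfr : Free Bad (({w} : Finset S) : Set S) := by
    intro s hs t ht
    rw [Finset.coe_singleton, Set.mem_singleton_iff] at hs ht
    subst hs
    subst ht
    exact hS0 _ hwS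
  obtain ⟨q', hq', hq'Q⟩ := hQ ⟨{w}, hfr⟩
  have hw' : w ∈ q'.fs := hq' (Finset.mem_singleton_self w)
  have key : ∃ q : M, ∃ r : FQ Bad, r ≤ q' ∧ r ≤ q.1 := by
    by_contra hno
    push Not at hno
    have hins : insert q' M ∈ Fam := by
      refine ⟨?_, ?_⟩
      · intro x hx
        rcases hx with rfl | hx
        · exact hq'Q
        · exact hMF.1 hx
      · rintro a ha b hb hab ⟨c, hca, hcb⟩
        rcases ha with rfl | ha
        · rcases hb with rfl | hb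
          · exact hab rfl
          · exact hno ⟨b, hb⟩ c hca hcb
        · rcases hb with rfl | hb
          · exact hno ⟨a, ha⟩ c hcb hca
          · exact hMF.2 a ha b hb hab ⟨c, hca, hcb⟩
    have hle : insert q' M ≤ M := hM.le_of_ge hins (Set.subset_insert q' M)
    have hq'M : q' ∈ M := hle (Set.mem_insert q' M)
    exact hno ⟨q', hq'M⟩ q' le_rfl le_rfl
  obtain ⟨q, r, hr1, hr2⟩ := key
  apply hw
  rw [Set.mem_iUnion]
  exact ⟨q, hT2 q r hr2 w (hr1 hw') hwS⟩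

/-- GF: the general form of the application of Martin's axiom -/
theorem gf : T_GF := by
  classical
  intro hMA S Bad hs hF K R hK hR S₀ hS hScard hS0
  obtain ⟨p₀, hp₀⟩ := fq_dns Bad hs hF S₀ hS hS0
  have hcard : #S₀ ≤ #Om := by rw [mk_Om]; exact hScard
  obtain ⟨idx⟩ := (Cardinal.le_def S₀ Om).1 hcard
  have hcc : ∀ A : Set {q : FQ Bad // q ≤ p₀}, (∀ a ∈ A, ∀ b ∈ A, a ≠ b →
      ¬ ∃ c : {q : FQ Bad // q ≤ p₀}, c ≤ a ∧ c ≤ b) → A.Countable := by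
    intro A hA
    have h1 : (Subtype.val '' A).Countable := by
      refine fq_ccc Bad hs hF _ ?_
      rintro _ ⟨a, ha, rfl⟩ _ ⟨b, hb, rfl⟩ hab ⟨c, hca, hcb⟩
      exact hA a ha b hb (fun h => hab (congrArg Subtype.val h))
        ⟨⟨c, hca.trans a.2⟩, hca, hcb⟩
    exact Set.countable_of_injective_of_countable_image Subtype.val_injective.injOn h1
  let D : K ⊕ Om → Set {q : FQ Bad // q ≤ p₀} := fun i => match i with
    | Sum.inl k => {q | ∃ s ∈ R k, s ∈ q.1.fs}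
    | Sum.inr w => {q | ∃ x : S₀, x.1 ∈ q.1.fs ∧ ¬ idx x ≤ w}
  have hι : #(K ⊕ Om) ≤ ℵ₁ := by
    rw [Cardinal.mk_sum, Cardinal.lift_id, Cardinal.lift_id]
    exact Cardinal.add_le_of_le (Cardinal.aleph0_le_aleph 1) hK mk_Om.le
  have hD : ∀ i, ∀ p : {q : FQ Bad // q ≤ p₀}, ∃ q ∈ D i, q ≤ p := by
    rintro (k | w) p
    · obtain ⟨s, hsR, hfr⟩ := hR k p.1.fs p.1.free
      have hfr' : Free Bad ((insert s p.1.fs : Finset S) : Set S) := by
        rw [Finset.coe_insert]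
        exact hfr
      have hle : (⟨insert s p.1.fs, hfr'⟩ : FQ Bad) ≤ p.1 := Finset.subset_insert _ _
      exact ⟨⟨_, hle.trans p.2⟩, ⟨s, hsR, Finset.mem_insert_self s p.1.fs⟩, hle⟩
    · have hT : (Subtype.val '' {x : S₀ | idx x ≤ w}).Countable :=
        ((cIic w).preimage idx.injective).image _
      obtain ⟨r, hr, x, hx, hxS, hxT⟩ := hp₀ p.1 p.2 _ hT
      refine ⟨⟨r, hr.trans p.2⟩, ⟨⟨x, hxS⟩, hx, fun h => hxT ⟨⟨x, hxS⟩, h, rfl⟩⟩, hr⟩
  have : Nonempty {q : FQ Bad // q ≤ p₀} := ⟨⟨p₀, le_refl _⟩⟩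
  obtain ⟨G, -, -, hdir, hmeet⟩ := hMA {q : FQ Bad // q ≤ p₀} hcc (K ⊕ Om) D hι hD
  refine ⟨{s | ∃ q ∈ G, s ∈ q.1.fs}, ?_, ?_, ?_⟩
  · rintro s ⟨q, hq, hsq⟩ t ⟨q', hq', htq⟩
    obtain ⟨r, -, hr1, hr2⟩ := hdir q hq q' hq'
    exact r.1.free s (hr1 hsq) t (hr2 htq)
  · intro k
    obtain ⟨q, hq, hqG⟩ := hmeet (Sum.inl k)
    obtain ⟨s, hs1, hs2⟩ := hq
    exact ⟨s, hs1, q, hqG, hs2⟩
  · intro hc
    have h1 : {x : S₀ | ∃ q ∈ G, x.1 ∈ q.1.fs}.Countable := by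
      refine Set.countable_of_injective_of_countable_image Subtype.val_injective.injOn
        (hc.mono ?_)
      rintro _ ⟨x, hx, rfl⟩
      exact ⟨hx, x.2⟩
    obtain ⟨w, hw⟩ := bdd (h1.image idx)
    obtain ⟨q, hq, hqG⟩ := hmeet (Sum.inr w)
    obtain ⟨x, hx, hxw⟩ := hq
    exact hxw (hw (idx x) ⟨x, ⟨q, hqG, hx⟩, rfl⟩).le

end Pool.Agent.H87.AG
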