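import Pool.Agent.H64.AG.Defs

/-! # Module PRM of the board ag_modules: the poset of promises -/

set_option autoImplicit false

open Cardinal

namespace Pool.Agent.H87.AG

open Pool.Agent.H64.AG Pool.Agent.H20.SL Pool.Agent.H64.AK Pool.Agent.H60.CP

/-- promises -/
def Pr {X : Type} (l : Om → X → ℝ) (Z : Option Om → Set (X × X)) (R : ℝ) : Type :=
  {π : Option Om × Finset ((X × X) × ℚ) // (∀ u ∈ π.2, u.1 ∈ Z π.1) ∧
    ∀ γ, π.1 = some γ → ∃ u ∈ π.2, (∀ ξ, ξ < γ → l ξ u.1.1 = l ξ u.1.2) ∧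
      3 * R / 2 < |(u.2 : ℝ)|}

/-- there are countably many promises of a given level -/
theorem pr_countable {X : Type} (l : Om → X → ℝ) (Z : Option Om → Set (X × X)) (R : ℝ)
    (hZ : ∀ o, (Z o).Countable) (o : Option Om) : {π : Pr l Z R | π.1.1 = o}.Countable := by
  have h1 : (Z o ×ˢ (Set.univ : Set ℚ)).Countable := (hZ o).prod Set.countable_univ
  refine Set.countable_of_injective_of_countable_image
    (f := fun π : Pr l Z R => (π.1.2 : Set ((X × X) × ℚ))) ?_
    ((Set.countable_ofPred_finite_subset h1).mono ?_)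
  · intro π hπ π' hπ' h
    have h2 : π.1.1 = π'.1.1 := hπ.trans hπ'.symm
    have h3 : π.1.2 = π'.1.2 := Finset.coe_injective h
    exact Subtype.ext (Prod.ext h2 h3)
  · rintro _ ⟨π, hπ, rfl⟩
    refine ⟨Finset.finite_toSet _, ?_⟩
    intro u hu
    have h2 := π.2.1 u hu
    have hπ' : π.1.1 = o := hπ
    rw [hπ'] at h2
    exact ⟨h2, Set.mem_univ _⟩

/-- `ξ` violates the promise `π` -/
def bad {X : Type} (l : Om → X → ℝ) (Z : Option Om → Set (X × X)) (R : ℝ)
    (N : Option Om → Set Om) (ξ : Om) (π : Pr l Z R) : Prop :=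
  ξ ∉ N π.1.1 ∧ ∀ u ∈ π.1.2, |df (l ξ) u.1 - (u.2 : ℝ)| < R

/-- the relation -/
def Bd {X : Type} (l : Om → X → ℝ) (Z : Option Om → Set (X × X)) (R : ℝ)
    (N : Option Om → Set Om) : Om ⊕ Pr l Z R → Om ⊕ Pr l Z R → Prop
  | Sum.inl ξ, Sum.inr π => bad l Z R N ξ π
  | Sum.inr π, Sum.inl ξ => bad l Z R N ξ π
  | Sum.inl _, Sum.inl _ => False
  | Sum.inr _, Sum.inr _ => False

theorem Bd_symm {X : Type} (l : Om → X → ℝ) (Z : Option Om → Set (X × X)) (R : ℝ)
    (N : Option Om → Set Om) (s t : Om ⊕ Pr l Z R) (h : Bd l Z R N s t) : Bd l Z R N t s := by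
  rcases s with ξ | π <;> rcases t with η | π' <;> exact h

theorem prm_fcc (hCC : T_CC) {X : Type} [TopologicalSpace X] [CompactSpace X] (x₀ : X)
    (hP : PCT (X × X)) (l : Om → X → ℝ) (hl : ∀ ξ, Continuous (l ξ))
    (Z : Option Om → Set (X × X)) (N : Option Om → Set Om) (R : ℝ) (hR : 0 < R)
    (hZ : ∀ o, (Z o).Countable) : FCC (Bd l Z R N) := by
  have hwt : ∀ π : Pr l Z R, ∃ w : X × X, ∀ γ, π.1.1 = some γ →
      ∃ u ∈ π.1.2, u.1 = w ∧ (∀ ξ, ξ < γ → l ξ w.1 = l ξ w.2) ∧ 3 * R / 2 < |(u.2 : ℝ)| := by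
    intro π
    rcases h : π.1.1 with _ | γ
    · exact ⟨(x₀, x₀), fun γ h => by cases h⟩
    · obtain ⟨u, hu, h1, h2⟩ := π.2.2 γ h
      refine ⟨u.1, fun γ' h' => ?_⟩
      have h3 : γ = γ' := by
        injection h'
      subst h3
      exact ⟨u, hu, rfl, h1, h2⟩
  choose wt hwt using hwt
  refine hCC (X × X) hP (Om ⊕ Pr l Z R) (Bd l Z R N)
    (Sum.elim (fun _ => (x₀, x₀)) wt) (Sum.elim (fun ξ => df (l ξ)) (fun _ _ => 0))
    (Sum.inr '' {π : Pr l Z R | π.1.1 = none}) (R / 2) ?_ (by positivity)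
    ((pr_countable l Z R hZ none).image _) ?_ ?_
  · rintro (ξ | π)
    · exact df_continuous (hl ξ)
    · exact continuous_const
  · rintro (ξ | π)
    · have h1 : (⋃ o ∈ insert none (some '' Set.Iic ξ), {π : Pr l Z R | π.1.1 = o}).Countable :=
        Set.Countable.biUnion (((cIic ξ).image _).insert _) fun o _ => pr_countable l Z R hZ o
      refine (h1.image Sum.inr).mono ?_
      rintro (η | π) ht
      · exfalso
        have h2 : R / 2 / 2 ≤ |df (l ξ) (x₀, x₀)| := ht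
        unfold df at h2
        simp only [sub_self, abs_zero] at h2
        linarith
      · refine ⟨π, ?_, rfl⟩
        simp only [Set.mem_iUnion]
        refine ⟨π.1.1, ?_, rfl⟩
        rcases h : π.1.1 with _ | γ
        · exact Set.mem_insert _ _
        · refine Set.mem_insert_of_mem _ ⟨γ, ?_, rfl⟩
          by_contra h3
          have h4 : ξ < γ := not_le.1 h3
          obtain ⟨u, -, -, h5, -⟩ := hwt π γ h
          have h2 : R / 2 / 2 ≤ |df (l ξ) (wt π)| := ht
          unfold df at h2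
          rw [h5 ξ h4, sub_self, abs_zero] at h2
          linarith
    · convert Set.countable_empty
      ext t
      simp only [Sum.elim_inr, abs_zero, Set.mem_ofPred_eq, Set.mem_empty_iff_false, iff_false]
      intro h
      linarith
  · have key : ∀ (ξ : Om) (π : Pr l Z R), bad l Z R N ξ π → π.1.1 = none ∨
        R / 2 ≤ |df (l ξ) (wt π)| := by
      intro ξ π h
      rcases h1 : π.1.1 with _ | γ
      · exact Or.inl rfl
      · right
        obtain ⟨u, hu, hw, -, h2⟩ := hwt π γ h1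
        have h3 := h.2 u hu
        rw [hw] at h3
        have h4 : |(u.2 : ℝ)| ≤ |df (l ξ) (wt π) - u.2| + |df (l ξ) (wt π)| := by
          have h5 : (u.2 : ℝ) = -(df (l ξ) (wt π) - u.2) + df (l ξ) (wt π) := by ring
          calc |(u.2 : ℝ)| = |-(df (l ξ) (wt π) - u.2) + df (l ξ) (wt π)| := by rw [← h5]
            _ ≤ |-(df (l ξ) (wt π) - u.2)| + |df (l ξ) (wt π)| := abs_add_le _ _
            _ = _ := by rw [abs_neg]
        linarith
    rintro (ξ | π) (η | π') h
    · exact h.elim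
    · rcases key ξ π' h with h1 | h1
      · exact Or.inr (Or.inl ⟨π', h1, rfl⟩)
      · exact Or.inr (Or.inr (Or.inl h1))
    · rcases key η π h with h1 | h1
      · exact Or.inl ⟨π, h1, rfl⟩
      · exact Or.inr (Or.inr (Or.inr h1))
    · exact h.elim

/-- PRM: the poset of promises -/
theorem prm (hGF : T_GF) (hCC : T_CC) (hTP1 : T_TP1) (hTP : T_TP) : T_PRM := by
  classical
  intro hMA X _ _ _ hCT l hl Z N R hR hZ hN hp
  have hX : Nonempty X := by
    by_contra hX
    rw [not_nonempty_iff] at hX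
    obtain ⟨o, -, ho⟩ := hp 0
    have h1 : N o = Set.univ := by
      ext ξ
      simp only [Set.mem_univ, iff_true]
      by_contra h2
      obtain ⟨w, -⟩ := ho ξ h2
      exact hX.false w.1
    have h2 := hN o
    rw [h1] at h2
    exact OmegaOne.unc h2
  obtain ⟨x₀⟩ := hX
  have hP : PCT (X × X) := hTP (X × X) (hTP1 X X hCT hCT)
  have hF := prm_fcc hCC x₀ hP l hl Z N R hR hZ
  have hK : #(MvPolynomial Om ℚ) ≤ ℵ₁ := by
    refine (MvPolynomial.cardinalMk_le_max (σ := Om) (R := ℚ)).trans ?_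
    have hi : ℵ₀ ≤ ℵ₁ := Cardinal.aleph0_le_aleph 1
    refine max_le (max_le ?_ mk_Om.le) hi
    exact (Cardinal.mk_le_aleph0 (α := ℚ)).trans hi
  obtain ⟨G, hG1, hG2, hG3⟩ := hGF hMA (Om ⊕ Pr l Z R) (Bd l Z R N) (Bd_symm l Z R N) hF
    (MvPolynomial Om ℚ)
    (fun p => {s | ∃ π : Pr l Z R, s = Sum.inr π ∧
      ∀ u ∈ π.1.2, |df (ev l p) u.1 - (u.2 : ℝ)| < R / 2}) hK (by
      intro p fr hfr
      obtain ⟨o, ho1, ho2⟩ := hp p
      have hrat : ∀ x : ℝ, ∃ q : ℚ, |x - q| < R / 2 := fun x => exists_rat_near x (by positivity)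
      obtain ⟨E, hE1, hE2⟩ : ∃ E : Finset ((X × X) × ℚ),
          (∀ u ∈ E, u.1 ∈ Z o ∧ |df (ev l p) u.1 - (u.2 : ℝ)| < R / 2) ∧
          ∀ γ, o = some γ → ∃ u ∈ E, (∀ ξ, ξ < γ → l ξ u.1.1 = l ξ u.1.2) ∧
            3 * R / 2 < |(u.2 : ℝ)| := by
        rcases o with _ | γ
        · exact ⟨∅, fun u hu => by simp at hu, fun γ h => by cases h⟩
        · obtain ⟨w, hw, hw1, hw2⟩ := ho1 γ rfl
          obtain ⟨q, hq⟩ := hrat (df (ev l p) w)
          refine ⟨{(w, q)}, ?_, ?_⟩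
          · intro u hu
            rw [Finset.mem_singleton] at hu
            subst hu
            exact ⟨hw, hq⟩
          · intro γ' h
            have h3 : γ = γ' := by injection h
            subst h3
            refine ⟨(w, q), Finset.mem_singleton_self _, hw1, ?_⟩
            show 3 * R / 2 < |(q : ℝ)|
            have h4 : |df (ev l p) w| ≤ |df (ev l p) w - q| + |(q : ℝ)| := by
              calc |df (ev l p) w| = |(df (ev l p) w - q) + q| := by rw [sub_add_cancel]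
                _ ≤ _ := abs_add_le _ _
            linarith
      have hwq : ∀ ξ : Om, ∃ (w : X × X) (q : ℚ), ξ ∉ N o → (w ∈ Z o ∧
          2 * R ≤ |df (l ξ) w - df (ev l p) w| ∧ |df (ev l p) w - q| < R / 2) := by
        intro ξ
        by_cases h : ξ ∈ N o
        · exact ⟨(x₀, x₀), 0, fun h1 => absurd h h1⟩
        · obtain ⟨w, h1, h2⟩ := ho2 ξ h
          obtain ⟨q, hq⟩ := hrat (df (ev l p) w)
          exact ⟨w, q, fun _ => ⟨h1, h2, hq⟩⟩
      choose w q hwq using hwq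
      let F : Finset ((X × X) × ℚ) :=
        ((fr.toLeft.filter fun ξ => ξ ∉ N o).image fun ξ => (w ξ, q ξ)) ∪ E
      have hF1 : ∀ u ∈ F, u.1 ∈ Z o ∧ |df (ev l p) u.1 - (u.2 : ℝ)| < R / 2 := by
        intro u hu
        rcases Finset.mem_union.1 hu with hu | hu
        · obtain ⟨ξ, hξ, rfl⟩ := Finset.mem_image.1 hu
          obtain ⟨h1, h2, h3⟩ := hwq ξ (Finset.mem_filter.1 hξ).2
          exact ⟨h1, h3⟩
        · exact hE1 u hu
      let π : Pr l Z R := ⟨(o, F), fun u hu => (hF1 u hu).1, fun γ h => by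
        obtain ⟨u, hu, h1⟩ := hE2 γ h
        exact ⟨u, Finset.mem_union_right _ hu, h1⟩⟩
      have hnb : ∀ ξ, Sum.inl ξ ∈ fr → ¬ bad l Z R N ξ π := by
        rintro ξ hξ ⟨h1, h2⟩
        have h1' : ξ ∉ N o := h1
        obtain ⟨h3, h4, h5⟩ := hwq ξ h1'
        have h6 : (w ξ, q ξ) ∈ F := Finset.mem_union_left _ (Finset.mem_image.2
          ⟨ξ, Finset.mem_filter.2 ⟨Finset.mem_toLeft.2 hξ, h1'⟩, rfl⟩)
        have h7 : |df (l ξ) (w ξ) - (q ξ : ℝ)| < R := h2 _ h6
        have h8 : |df (l ξ) (w ξ) - df (ev l p) (w ξ)| ≤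
            |df (l ξ) (w ξ) - (q ξ : ℝ)| + |df (ev l p) (w ξ) - (q ξ : ℝ)| := by
          calc |df (l ξ) (w ξ) - df (ev l p) (w ξ)| =
                |(df (l ξ) (w ξ) - (q ξ : ℝ)) - (df (ev l p) (w ξ) - (q ξ : ℝ))| := by
                congr 1; ring
            _ ≤ _ := abs_sub _ _
        linarith
      refine ⟨Sum.inr π, ⟨π, rfl, fun u hu => (hF1 u hu).2⟩, ?_⟩
      rintro s hs t ht hst
      rcases hs with rfl | hs
      · rcases ht with rfl | ht
        · exact hst
        · rcases t with ξ | π'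
          · exact hnb ξ ht hst
          · exact hst
      · rcases ht with rfl | ht
        · rcases s with ξ | π'
          · exact hnb ξ hs hst
          · exact hst
        · exact hfr s hs t ht hst)
    (Set.range Sum.inl) (by
      intro h
      refine OmegaOne.unc (W := Om) ?_
      refine Set.countable_of_injective_of_countable_image
        (f := (Sum.inl : Om → Om ⊕ Pr l Z R)) Sum.inl_injective.injOn ?_
      rwa [Set.image_univ])
    ((Cardinal.mk_range_le).trans mk_Om.le)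
    (by
      rintro _ ⟨ξ, rfl⟩ h
      exact h)
  refine ⟨{ξ | Sum.inl ξ ∈ G}, ?_, ?_⟩
  · intro h
    apply hG3
    refine (h.image Sum.inl).mono ?_
    rintro _ ⟨h1, ξ, rfl⟩
    exact ⟨ξ, h1, rfl⟩
  · intro p
    obtain ⟨s, ⟨π, rfl, hπ⟩, hsG⟩ := hG2 p
    refine ⟨π.1.2, hπ, (hN π.1.1).mono ?_⟩
    rintro ξ ⟨h1, h2⟩
    by_contra h3
    exact hG1 _ h1 _ hsG (show bad l Z R N ξ π from ⟨h3, h2⟩)

end Pool.Agent.H87.AG
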